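import Mathlib

/-!
# Project GB: determinants of Gaussian block random matrices (definitions and exact statements)

Notation: `gam ι` is the standard Gaussian measure on `ι → ℝ`; `Hm g` is the Hermitian matrix with
`(Hm g) k l = (g k l + g l k)/2 + i (g k l - g l k)/2` (so for standard Gaussian `g` it is a GUE matrix
with `E|entry|^2 = 1`); `W a g = ∑ a_j ⊗ Hm g_j`; `AN a N g = N^(-1/2) W a g`.
-/

set_option autoImplicit false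
open MeasureTheory ProbabilityTheory Filter Topology
open scoped NNReal Matrix ComplexOrder

namespace Pool.Agent.W837.GB

/-! ### Gaussian space and random matrices -/

/-- standard Gaussian measure on `ι → ℝ` -/
noncomputable def gam (ι : Type) [Fintype ι] : Measure (ι → ℝ) :=
  Measure.pi fun _ => gaussianReal 0 1

/-- the Hermitian matrix with real parameters `g` -/
noncomputable def Hm {κ : Type} (g : κ → κ → ℝ) : Matrix κ κ ℂ :=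
  fun k l => (((g k l + g l k) / 2 : ℝ) : ℂ) + Complex.I * (((g k l - g l k) / 2 : ℝ) : ℂ)

/-- `∑ a_j ⊗ Hm g_j` -/
noncomputable def W {n : ℕ} {ν κ : Type} (a : Fin n → Matrix ν ν ℂ) (g : Fin n × κ × κ → ℝ) :
    Matrix (ν × κ) (ν × κ) ℂ :=
  ∑ j, Matrix.kronecker (a j) (Hm fun k l => g (j, k, l))

/-- normalised: `N^(-1/2) ∑ a_j ⊗ Hm g_j` -/
noncomputable def AN {n : ℕ} {ν : Type} (a : Fin n → Matrix ν ν ℂ) (N : ℕ)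
    (g : Fin n × Fin N × Fin N → ℝ) : Matrix (ν × Fin N) (ν × Fin N) ℂ :=
  (((Real.sqrt N)⁻¹ : ℝ) : ℂ) • W a g

/-- normalised determinant -/
noncomputable def DN {n m : ℕ} (a : Fin n → Matrix (Fin m) (Fin m) ℂ) (N : ℕ)
    (g : Fin n × Fin N × Fin N → ℝ) : ℝ :=
  ‖(AN a N g).det‖ ^ (1 / ((m : ℝ) * (N : ℝ)))

/-! ### Linear algebra of the tuple -/

def eta {n m : ℕ} (a : Fin n → Matrix (Fin m) (Fin m) ℂ) (b : Matrix (Fin m) (Fin m) ℂ) :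
    Matrix (Fin m) (Fin m) ℂ := ∑ j, a j * b * (a j)ᴴ

def etas {n m : ℕ} (a : Fin n → Matrix (Fin m) (Fin m) ℂ) (b : Matrix (Fin m) (Fin m) ℂ) :
    Matrix (Fin m) (Fin m) ℂ := ∑ j, (a j)ᴴ * b * a j

/-- doubly stochastic -/
def DS {n m : ℕ} (a : Fin n → Matrix (Fin m) (Fin m) ℂ) : Prop := eta a 1 = 1 ∧ etas a 1 = 1

/-- capacity -/
noncomputable def cap {n m : ℕ} (a : Fin n → Matrix (Fin m) (Fin m) ℂ) : ℝ :=
  sInf {c : ℝ | ∃ b : Matrix (Fin m) (Fin m) ℂ, b.PosDef ∧ c = (eta a b).det.re / b.det.re}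

/-- `∑ a_j T` for a subspace `T` -/
noncomputable def imS {n m : ℕ} (a : Fin n → Matrix (Fin m) (Fin m) ℂ)
    (T : Submodule ℂ (Fin m → ℂ)) : Submodule ℂ (Fin m → ℂ) :=
  ⨆ j, T.map (Matrix.mulVecLin (a j))

/-- rank non-decreasing (subspace form) -/
def Nd {n m : ℕ} (a : Fin n → Matrix (Fin m) (Fin m) ℂ) : Prop :=
  ∀ T : Submodule ℂ (Fin m → ℂ), Module.finrank ℂ T ≤ Module.finrank ℂ (imS a T)

/-- fully indecomposable -/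
def Ind {n m : ℕ} (a : Fin n → Matrix (Fin m) (Fin m) ℂ) : Prop :=
  imS a ⊤ = ⊤ ∧ ∀ T : Submodule ℂ (Fin m → ℂ), T ≠ ⊥ → T ≠ ⊤ →
    Module.finrank ℂ T < Module.finrank ℂ (imS a T)

/-- rank non-decreasing (completely positive map form, as in the problem) -/
def RND {n m : ℕ} (a : Fin n → Matrix (Fin m) (Fin m) ℂ) : Prop :=
  ∀ b : Matrix (Fin m) (Fin m) ℂ, b.PosSemidef → b.rank ≤ (eta a b).rank

/-- some matrix `∑ a_j ⊗ d_j` is invertible -/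
def Inv {n m : ℕ} (a : Fin n → Matrix (Fin m) (Fin m) ℂ) : Prop :=
  ∃ (K : ℕ) (d : Fin n → Matrix (Fin K) (Fin K) ℂ), 1 ≤ K ∧
    (∑ j, Matrix.kronecker (a j) (d j)).det ≠ 0

/-! ### Regularised log determinant and trace of the resolvent -/

/-- `M M* + δ²` -/
noncomputable def Q {ι : Type} [Fintype ι] [DecidableEq ι] (M : Matrix ι ι ℂ) (δ : ℝ) :
    Matrix ι ι ℂ := M * Mᴴ + ((δ ^ 2 : ℝ) : ℂ) • (1 : Matrix ι ι ℂ)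

/-- `log det (M M* + δ²)` -/
noncomputable def ld {ι : Type} [Fintype ι] [DecidableEq ι] (M : Matrix ι ι ℂ) (δ : ℝ) : ℝ :=
  Real.log (Q M δ).det.re

/-- `δ Tr (M M* + δ²)⁻¹` -/
noncomputable def tg {ι : Type} [Fintype ι] [DecidableEq ι] (M : Matrix ι ι ℂ) (δ : ℝ) : ℝ :=
  δ * ((Q M δ)⁻¹).trace.re

/-- `m(δ)`, the positive solution of `m (δ + m) = 1` -/
noncomputable def ms (δ : ℝ) : ℝ := (Real.sqrt (δ ^ 2 + 4) - δ) / 2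

/-- squared Hilbert-Schmidt norm -/
noncomputable def hs {ι ι' : Type} [Fintype ι] [Fintype ι'] (Y : Matrix ι ι' ℂ) : ℝ :=
  ∑ i, ∑ j, ‖Y i j‖ ^ 2

/-- resolvent `(H - iδ)⁻¹` -/
noncomputable def res {ι : Type} [Fintype ι] [DecidableEq ι] (H : Matrix ι ι ℂ) (δ : ℝ) :
    Matrix ι ι ℂ := (H - ((δ : ℂ) * Complex.I) • (1 : Matrix ι ι ℂ))⁻¹

/-- normalised partial trace over `Fin N` -/
noncomputable def pt {ν : Type} {N : ℕ} (R : Matrix (ν × Fin N) (ν × Fin N) ℂ) : Matrix ν ν ℂ :=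
  fun x y => (N : ℂ)⁻¹ * ∑ k, R (x, k) (y, k)

/-- the basis matrix `Hm` of a coordinate vector -/
noncomputable def Eb {κ : Type} [DecidableEq κ] (k l : κ) : Matrix κ κ ℂ :=
  Hm fun x y => if x = k ∧ y = l then 1 else 0

/-- Hermitisation of the tuple -/
noncomputable def al {n m : ℕ} (a : Fin n → Matrix (Fin m) (Fin m) ℂ) :
    Fin n → Matrix (Fin m ⊕ Fin m) (Fin m ⊕ Fin m) ℂ :=
  fun j => Matrix.fromBlocks 0 (a j) (a j)ᴴ 0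

/-- `δ_N = N^(-1/20)` -/
noncomputable def dl (N : ℕ) : ℝ := (N : ℝ) ^ (-(1 / 20 : ℝ))

/-- the summable rate `N^(-3/2)` -/
noncomputable def rt (N : ℕ) : ℝ := (N : ℝ) ^ (-(3 / 2 : ℝ))

/-- convergence in probability at a summable rate -/
def Good {n m : ℕ} (a : Fin n → Matrix (Fin m) (Fin m) ℂ) (L : ℝ) : Prop :=
  ∀ ε : ℝ, 0 < ε → ∃ C : ℝ, ∀ N : ℕ, 1 ≤ N →
    (gam (Fin n × Fin N × Fin N)).real {g | ε ≤ |DN a N g - L|} ≤ C * rt N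

/-! ### Gaussian calculus -/

def S_IBP : Prop := ∀ (ι : Type) [Fintype ι] [DecidableEq ι] (f : (ι → ℝ) → ℂ) (C : ℝ) (k : ι),
  ContDiff ℝ 1 f → (∀ x, ‖f x‖ ≤ C) → (∀ x, ‖fderiv ℝ f x‖ ≤ C) →
  ∫ x, (x k : ℂ) * f x ∂(gam ι) = ∫ x, fderiv ℝ f x (Pi.single k 1) ∂(gam ι)

def S_VAR : Prop := ∀ (ι : Type) [Fintype ι] [DecidableEq ι] (f : (ι → ℝ) → ℂ) (V : ℝ),
  ContDiff ℝ 1 f → (∀ x, ∑ k, ‖fderiv ℝ f x (Pi.single k 1)‖ ^ 2 ≤ V) →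
  Integrable f (gam ι) ∧ Integrable (fun x => ‖f x - ∫ y, f y ∂(gam ι)‖ ^ 2) (gam ι) ∧
  ∫ x, ‖f x - ∫ y, f y ∂(gam ι)‖ ^ 2 ∂(gam ι) ≤ 2 * V

/-- rotation invariance -/
def S_ROT : Prop := ∀ (ι : Type) [Fintype ι] (θ : ℝ),
  MeasurePreserving (fun p : (ι → ℝ) × (ι → ℝ) =>
    ((fun i => Real.cos θ * p.1 i + Real.sin θ * p.2 i),
      (fun i => -Real.sin θ * p.1 i + Real.cos θ * p.2 i)))
    ((gam ι).prod (gam ι)) ((gam ι).prod (gam ι))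

/-! ### Resolvents -/

def S_RES : Prop := ∀ (ι : Type) [Fintype ι] [DecidableEq ι] (H : Matrix ι ι ℂ) (δ : ℝ),
  H.IsHermitian → 0 < δ →
  IsUnit (H - ((δ : ℂ) * Complex.I) • (1 : Matrix ι ι ℂ)).det ∧
  (∀ i j, ‖res H δ i j‖ ≤ δ⁻¹) ∧
  (∀ (ι' : Type) [Fintype ι'] (Y : Matrix ι ι' ℂ), hs (res H δ * Y) ≤ hs Y / δ ^ 2) ∧
  (∀ (ι' : Type) [Fintype ι'] (Y : Matrix ι' ι ℂ), hs (Y * res H δ) ≤ hs Y / δ ^ 2)

/-- smoothness and derivative of the resolvent of `AN α N g` -/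
def S_RD : Prop := ∀ (ν : Type) [Fintype ν] [DecidableEq ν] (n : ℕ) (α : Fin n → Matrix ν ν ℂ)
  (N : ℕ) (δ : ℝ), (∀ j, (α j).IsHermitian) → 1 ≤ N → 0 < δ →
  ∀ x y : ν × Fin N,
    ContDiff ℝ 1 (fun g : Fin n × Fin N × Fin N → ℝ => res (AN α N g) δ x y) ∧
    (∀ (g : Fin n × Fin N × Fin N → ℝ) (j : Fin n) (k l : Fin N),
      fderiv ℝ (fun g : Fin n × Fin N × Fin N → ℝ => res (AN α N g) δ x y) g
        (Pi.single (j, k, l) 1) =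
      -(((Real.sqrt N)⁻¹ : ℝ) : ℂ) *
        (res (AN α N g) δ * Matrix.kronecker (α j) (Eb k l) * res (AN α N g) δ) x y)

/-- elementary facts on the basis `Eb` -/
def S_EB : Prop := ∀ (κ : Type) [Fintype κ] [DecidableEq κ],
  (∀ g : κ → κ → ℝ, (Hm g).IsHermitian ∧ Hm g = ∑ k, ∑ l, ((g k l : ℝ) : ℂ) • Eb k l) ∧
  (∀ T : Matrix κ κ ℂ, ∑ k, ∑ l, Eb k l * T * Eb k l = T.trace • (1 : Matrix κ κ ℂ)) ∧
  (∀ (ν : Type) [Fintype ν] [DecidableEq ν] (β : Matrix ν ν ℂ) (Y : Matrix (ν × κ) (ν × κ) ℂ),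
    ∑ k, ∑ l, ‖Matrix.trace (Matrix.kronecker β (Eb k l) * Y)‖ ^ 2 ≤ 2 * hs β * hs Y)

/-- variance of the partial trace of the resolvent -/
def S_RB : Prop := ∀ (ν : Type) [Fintype ν] [DecidableEq ν] (n : ℕ) (α : Fin n → Matrix ν ν ℂ),
  (∀ j, (α j).IsHermitian) → ∃ C : ℝ, 0 ≤ C ∧ ∀ (N : ℕ) (δ : ℝ), 1 ≤ N → 0 < δ → ∀ x y : ν,
    ∫ g, ‖pt (res (AN α N g) δ) x y - ∫ h, pt (res (AN α N h) δ) x y ∂(gam _)‖ ^ 2 ∂(gam _) ≤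
      C / ((N : ℝ) ^ 2 * δ ^ 4)

/-- exact Schwinger-Dyson equation -/
def S_SDE : Prop := ∀ (ν : Type) [Fintype ν] [DecidableEq ν] (n : ℕ) (α : Fin n → Matrix ν ν ℂ)
  (N : ℕ) (δ : ℝ), (∀ j, (α j).IsHermitian) → 1 ≤ N → 0 < δ → ∀ x y : ν,
    (∫ g, (∑ j, α j * pt (res (AN α N g) δ) * α j * pt (res (AN α N g) δ)) x y ∂(gam _)) +
      (δ : ℂ) * Complex.I * (∫ g, pt (res (AN α N g) δ) x y ∂(gam _)) +
      (1 : Matrix ν ν ℂ) x y = 0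

/-- approximate Schwinger-Dyson equation for the mean -/
def S_SD : Prop := ∀ (ν : Type) [Fintype ν] [DecidableEq ν] (n : ℕ) (α : Fin n → Matrix ν ν ℂ),
  (∀ j, (α j).IsHermitian) → ∃ C : ℝ, 0 ≤ C ∧ ∀ (N : ℕ) (δ : ℝ), 1 ≤ N → 0 < δ →
    ∀ M : Matrix ν ν ℂ, (∀ x y, M x y = ∫ g, pt (res (AN α N g) δ) x y ∂(gam _)) →
    ∀ x y, ‖(∑ j, α j * M * α j * M + ((δ : ℂ) * Complex.I) • M + 1) x y‖ ≤
      C / ((N : ℝ) ^ 2 * δ ^ 4)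

/-- block structure of the resolvent of the Hermitisation -/
def S_BLK : Prop := ∀ (n m N : ℕ) (a : Fin n → Matrix (Fin m) (Fin m) ℂ) (δ : ℝ), 1 ≤ N → 0 < δ →
  (∀ (g : Fin n × Fin N × Fin N → ℝ) (x y : Fin m),
    pt (res (AN (al a) N g) δ) (Sum.inl x) (Sum.inl y) =
      Complex.I * (pt ((δ : ℂ) • (Q (AN a N g) δ)⁻¹) x y) ∧
    pt (res (AN (al a) N g) δ) (Sum.inr x) (Sum.inr y) =
      Complex.I * (pt ((δ : ℂ) • (Q (AN a N g)ᴴ δ)⁻¹) x y)) ∧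
  (∀ (x y : Fin m),
    ∫ g, pt (res (AN (al a) N g) δ) (Sum.inl x) (Sum.inr y) ∂(gam _) = 0 ∧
    ∫ g, pt (res (AN (al a) N g) δ) (Sum.inr x) (Sum.inl y) ∂(gam _) = 0)

/-- positivity and bounds for the two expected partial traces -/
def S_PSD : Prop := ∀ (n m N : ℕ) (a : Fin n → Matrix (Fin m) (Fin m) ℂ) (δ : ℝ), 1 ≤ N → 0 < δ →
  ∀ M1 M2 : Matrix (Fin m) (Fin m) ℂ,
  (∀ x y, M1 x y = ∫ g, pt ((δ : ℂ) • (Q (AN a N g) δ)⁻¹) x y ∂(gam _)) →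
  (∀ x y, M2 x y = ∫ g, pt ((δ : ℂ) • (Q (AN a N g)ᴴ δ)⁻¹) x y ∂(gam _)) →
  M1.PosSemidef ∧ M2.PosSemidef ∧ (((δ⁻¹ : ℝ) : ℂ) • (1 : Matrix (Fin m) (Fin m) ℂ) - M1).PosSemidef ∧
  (((δ⁻¹ : ℝ) : ℂ) • (1 : Matrix (Fin m) (Fin m) ℂ) - M2).PosSemidef ∧
  (Integrable (fun g => tg (AN a N g) δ) (gam _)) ∧
  ∫ g, tg (AN a N g) δ ∂(gam _) = (N : ℝ) * M1.trace.re

/-- stability of the matrix equations (extremal eigenvalues) -/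
def S_STAB : Prop := ∀ (n m : ℕ) (a : Fin n → Matrix (Fin m) (Fin m) ℂ) (δ e : ℝ)
  (M1 M2 : Matrix (Fin m) (Fin m) ℂ), 1 ≤ m → DS a → 0 < δ → 0 ≤ e →
  M1.PosSemidef → M2.PosSemidef →
  (((δ⁻¹ : ℝ) : ℂ) • (1 : Matrix (Fin m) (Fin m) ℂ) - M1).PosSemidef →
  (((δ⁻¹ : ℝ) : ℂ) • (1 : Matrix (Fin m) (Fin m) ℂ) - M2).PosSemidef →
  (∀ x y, ‖(((δ : ℂ) • (1 : Matrix (Fin m) (Fin m) ℂ) + eta a M2) * M1 - 1) x y‖ ≤ e) →
  (∀ x y, ‖(((δ : ℂ) • (1 : Matrix (Fin m) (Fin m) ℂ) + etas a M1) * M2 - 1) x y‖ ≤ e) →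
  |M1.trace.re / m - ms δ| ≤ 3 * m * e * (δ⁻¹ + δ⁻¹ ^ 3)

/-- mean of the trace of the resolvent -/
def S_GMEAN : Prop := ∀ (n m : ℕ) (a : Fin n → Matrix (Fin m) (Fin m) ℂ), 1 ≤ m → DS a →
  ∃ C : ℝ, 0 ≤ C ∧ ∀ (N : ℕ) (δ : ℝ), 1 ≤ N → 0 < δ →
    Integrable (fun g => tg (AN a N g) δ) (gam _) ∧
    |(∫ g, tg (AN a N g) δ ∂(gam _)) / (m * N) - ms δ| ≤
      C / (N : ℝ) ^ 2 * (δ⁻¹ ^ 5 + δ⁻¹ ^ 7)

/-- variance of the trace of the resolvent -/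
def S_GVAR : Prop := ∀ (n m : ℕ) (a : Fin n → Matrix (Fin m) (Fin m) ℂ), 1 ≤ m →
  ∃ C : ℝ, 0 ≤ C ∧ ∀ (N : ℕ) (δ : ℝ), 1 ≤ N → 0 < δ →
    Integrable (fun g => (tg (AN a N g) δ / (m * N) -
      (∫ h, tg (AN a N h) δ ∂(gam _)) / (m * N)) ^ 2) (gam _) ∧
    ∫ g, (tg (AN a N g) δ / (m * N) - (∫ h, tg (AN a N h) δ ∂(gam _)) / (m * N)) ^ 2 ∂(gam _) ≤
      C / ((N : ℝ) ^ 2 * δ ^ 4)

/-- variance of the regularised log determinant -/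
def S_LVAR : Prop := ∀ (n m : ℕ) (a : Fin n → Matrix (Fin m) (Fin m) ℂ), 1 ≤ m →
  ∃ C : ℝ, 0 ≤ C ∧ ∀ (N : ℕ) (δ : ℝ), 1 ≤ N → 0 < δ →
    Integrable (fun g => ld (AN a N g) δ) (gam _) ∧
    Integrable (fun g => (ld (AN a N g) δ / (m * N) -
      (∫ h, ld (AN a N h) δ ∂(gam _)) / (m * N)) ^ 2) (gam _) ∧
    ∫ g, (ld (AN a N g) δ / (m * N) - (∫ h, ld (AN a N h) δ ∂(gam _)) / (m * N)) ^ 2 ∂(gam _) ≤
      C / ((N : ℝ) ^ 2 * δ ^ 2)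

/-- deterministic: derivative in `δ` of the regularised log determinant -/
def S_LDER : Prop := ∀ (ι : Type) [Fintype ι] [DecidableEq ι] (M : Matrix ι ι ℂ),
  (∀ δ : ℝ, 0 < δ → 0 < (Q M δ).det.re ∧ 0 ≤ tg M δ ∧ tg M δ ≤ Fintype.card ι / δ) ∧
  (ContinuousOn (fun t => tg M t) (Set.Ioi 0)) ∧
  (∀ δ L : ℝ, 0 < δ → δ ≤ L → ld M L - ld M δ = ∫ t in δ..L, 2 * tg M t)

/-- the regularised log determinant for large `L` -/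
def S_LLARGE : Prop := ∀ (n m : ℕ) (a : Fin n → Matrix (Fin m) (Fin m) ℂ), 1 ≤ m → DS a →
  ∀ (N : ℕ) (L : ℝ), 1 ≤ N → 0 < L →
    Integrable (fun g => ld (AN a N g) L) (gam _) ∧
    2 * Real.log L ≤ (∫ g, ld (AN a N g) L ∂(gam _)) / (m * N) ∧
    (∫ g, ld (AN a N g) L ∂(gam _)) / (m * N) ≤ 2 * Real.log L + (L ^ 2)⁻¹

/-- calculus -/
def S_FINT : Prop := ∃ C : ℝ, ∀ δ L : ℝ, 0 < δ → δ ≤ 1 → 1 ≤ L →
  |2 * Real.log L - (∫ t in δ..L, 2 * ms t) + 1| ≤ 2 * δ + C / L ^ 2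

/-- mean of the regularised log determinant -/
def S_LMEAN : Prop := ∀ (n m : ℕ) (a : Fin n → Matrix (Fin m) (Fin m) ℂ), 1 ≤ m → DS a →
  ∃ C : ℝ, 0 ≤ C ∧ ∀ (N : ℕ) (δ : ℝ), 1 ≤ N → 0 < δ → δ ≤ 1 →
    |(∫ g, ld (AN a N g) δ ∂(gam _)) / (m * N) + 1| ≤ C * (δ + δ⁻¹ ^ 6 / (N : ℝ) ^ 2)

/-- the bulk estimate -/
def S_BULK : Prop := ∀ (n m : ℕ) (a : Fin n → Matrix (Fin m) (Fin m) ℂ), 1 ≤ m → DS a →
  (∀ ε : ℝ, 0 < ε → ∃ C : ℝ, 0 ≤ C ∧ ∀ N : ℕ, 1 ≤ N →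
    (gam (Fin n × Fin N × Fin N)).real {g | ε ≤ |ld (AN a N g) (dl N) / (m * N) + 1|} ≤ C * rt N) ∧
  (∃ C : ℝ, 0 ≤ C ∧ ∀ N : ℕ, 1 ≤ N →
    (gam (Fin n × Fin N × Fin N)).real {g | 2 ≤ tg (AN a N g) (dl N) / (m * N)} ≤ C * rt N)

/-- upper bound for the determinant -/
def S_UP : Prop := ∀ (n m N : ℕ) (a : Fin n → Matrix (Fin m) (Fin m) ℂ)
  (g : Fin n × Fin N × Fin N → ℝ) (δ : ℝ), 1 ≤ m → 1 ≤ N → 0 < δ →
  DN a N g ≤ Real.exp (ld (AN a N g) δ / (m * N) / 2)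

/-! ### Small singular values -/

/-- repairing the small singular values by a matrix of small rank -/
def S_SE : Prop := ∀ (ι : Type) [Fintype ι] [DecidableEq ι] (M : Matrix ι ι ℂ) (δ : ℝ),
  0 < δ → δ ≤ 1 / 2 → ∃ k : ℕ, (k : ℝ) ≤ 2 * δ * tg M δ ∧ ∃ u v : Fin k → ι → ℂ,
    (∀ i x, ‖u i x‖ ≤ 1 ∧ ‖v i x‖ ≤ 1) ∧
    Real.exp (ld M δ - 2 * δ * tg M δ) ≤ ‖(M + ∑ i, Matrix.vecMulVec (u i) (v i)).det‖ ^ 2

/-- primitive part of a vector of polynomials -/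
def S_PRIM : Prop := ∀ (σ I : Type) [Fintype σ] [Fintype I] (v : I → MvPolynomial σ ℂ), v ≠ 0 →
  ∃ (p : MvPolynomial σ ℂ) (w : I → MvPolynomial σ ℂ), p ≠ 0 ∧ (∀ s, v s = p * w s) ∧
    ∀ r, (∀ s, r ∣ w s) → IsUnit r

/-- proportional primitive vectors differ by a constant -/
def S_PROP : Prop := ∀ (σ I : Type) [Fintype σ] [Fintype I] (v w : I → MvPolynomial σ ℂ),
  (∀ r, (∀ s, r ∣ v s) → IsUnit r) → (∀ r, (∀ s, r ∣ w s) → IsUnit r) → v ≠ 0 → w ≠ 0 →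
  (∀ s t, v s * w t = v t * w s) → ∃ c : ℂ, c ≠ 0 ∧ ∀ s, w s = MvPolynomial.C c * v s

/-- regularity lemma (matrix semi-invariants): rank more than `(m-1) N` forces full rank somewhere -/
def S_REG : Prop := ∀ (n m N : ℕ) (a : Fin n → Matrix (Fin m) (Fin m) ℂ), 1 ≤ m → 1 ≤ N →
  (∃ T : Fin n → Matrix (Fin N) (Fin N) ℂ,
    (m - 1) * N < (∑ j, Matrix.kronecker (a j) (T j)).rank) →
  ∃ T : Fin n → Matrix (Fin N) (Fin N) ℂ, (∑ j, Matrix.kronecker (a j) (T j)).det ≠ 0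

/-- a doubly stochastic tuple has an invertible blow-up -/
def S_DSINV : Prop := ∀ (n m : ℕ) (a : Fin n → Matrix (Fin m) (Fin m) ℂ), 1 ≤ m → DS a → Inv a

/-- Burnside's theorem -/
def S_BT : Prop := ∀ (m : ℕ) (A : Subalgebra ℂ (Matrix (Fin m) (Fin m) ℂ)),
  (∀ T : Submodule ℂ (Fin m → ℂ), (∀ x ∈ A, T.map (Matrix.mulVecLin x) ≤ T) → T = ⊥ ∨ T = ⊤) →
  1 ≤ m → A = ⊤

/-- compression of a block matrix -/
def cmp {m K : ℕ} (D : Matrix (Fin m × Fin K) (Fin m × Fin K) ℂ) (f g : Fin K → ℂ) :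
    Matrix (Fin m) (Fin m) ℂ := fun x y => ∑ s, ∑ t, f s * D (x, s) (y, t) * g t

/-- Burnside: every matrix is of the form `∑ a_j (1⊗f_j) D⁻¹ (1⊗g_k) a_k` -/
def S_BURN : Prop := ∀ (n m : ℕ) (a : Fin n → Matrix (Fin m) (Fin m) ℂ), 1 ≤ m → Ind a → Inv a →
  ∀ E : Matrix (Fin m) (Fin m) ℂ, ∃ (K : ℕ) (d : Fin n → Matrix (Fin K) (Fin K) ℂ)
    (f g : Fin n → Fin K → ℂ), 1 ≤ K ∧ (∑ j, Matrix.kronecker (a j) (d j)).det ≠ 0 ∧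
    ∑ j, ∑ k, a j * cmp (∑ i, Matrix.kronecker (a i) (d i))⁻¹ (f j) (g k) * a k = E

/-- evaluation points for bordered determinants -/
def S_EVAL : Prop := ∀ (n m : ℕ) (a : Fin n → Matrix (Fin m) (Fin m) ℂ), 1 ≤ m → Ind a → Inv a →
  ∃ (K0 : ℕ) (B c : ℝ), 1 ≤ K0 ∧ 1 ≤ B ∧ 0 < c ∧
  ∀ (N' k k1 : ℕ) (M : Matrix (Fin m × Fin N') (Fin m × Fin N') ℂ)
    (u v : Fin k → Fin m × Fin N' → ℂ), k ≤ k1 → (∀ i x, ‖u i x‖ ≤ 1 ∧ ‖v i x‖ ≤ 1) →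
  ∃ (f : Fin n → Matrix (Fin N') (Fin (K0 * k1)) ℂ) (g : Fin n → Matrix (Fin (K0 * k1)) (Fin N') ℂ)
    (d : Fin n → Matrix (Fin (K0 * k1)) (Fin (K0 * k1)) ℂ),
    (∀ j x y, ‖f j x y‖ ≤ B) ∧ (∀ j x y, ‖g j x y‖ ≤ B) ∧ (∀ j x y, ‖d j x y‖ ≤ B) ∧
    ‖(Matrix.fromBlocks M (∑ j, Matrix.kronecker (a j) (f j)) (∑ j, Matrix.kronecker (a j) (g j))
      (∑ j, Matrix.kronecker (a j) (d j))).det‖ =
      c ^ k1 * ‖(M + ∑ i, Matrix.vecMulVec (u i) (v i)).det‖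

/-- border coordinates -/
abbrev Bd (n N' K : ℕ) : Type :=
  Fin n × ((Fin N' × Fin K) ⊕ ((Fin K × Fin N') ⊕ (Fin K × Fin K)))

/-- glue the parameters of the principal block and of the border -/
def glue {n N' K : ℕ} (g : Fin n × Fin N' × Fin N' → ℝ) (h : Bd n N' K → ℝ) :
    Fin n × (Fin N' ⊕ Fin K) × (Fin N' ⊕ Fin K) → ℝ
  | (j, Sum.inl x, Sum.inl y) => g (j, x, y)
  | (j, Sum.inl x, Sum.inr y) => h (j, Sum.inl (x, y))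
  | (j, Sum.inr x, Sum.inl y) => h (j, Sum.inr (Sum.inl (x, y)))
  | (j, Sum.inr x, Sum.inr y) => h (j, Sum.inr (Sum.inr (x, y)))

/-- the bordered determinant is a polynomial of low degree in the border variables -/
def S_POLY : Prop := ∀ (n m N' K : ℕ) (a : Fin n → Matrix (Fin m) (Fin m) ℂ)
  (g' : Fin n × Fin N' × Fin N' → ℝ), 1 ≤ N' →
  ∃ P : MvPolynomial (Bd n N' K) ℂ, P.totalDegree ≤ 2 * m * K ∧
    (∀ h : Bd n N' K → ℝ, MvPolynomial.eval (fun i => ((h i : ℝ) : ℂ)) P =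
      ((((Real.sqrt N')⁻¹ : ℝ) : ℂ) • W a (glue g' h)).det) ∧
    (∀ (f : Fin n → Matrix (Fin N') (Fin K) ℂ) (g : Fin n → Matrix (Fin K) (Fin N') ℂ)
      (d : Fin n → Matrix (Fin K) (Fin K) ℂ) (B : ℝ),
      (∀ j x y, ‖f j x y‖ ≤ B) → (∀ j x y, ‖g j x y‖ ≤ B) → (∀ j x y, ‖d j x y‖ ≤ B) →
      ∃ z : Bd n N' K → ℂ, (∀ i, ‖z i‖ ≤ 2 * B * Real.sqrt N') ∧
        MvPolynomial.eval z P =
          (Matrix.fromBlocks (AN a N' g') (∑ j, Matrix.kronecker (a j) (f j))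
            (∑ j, Matrix.kronecker (a j) (g j)) (∑ j, Matrix.kronecker (a j) (d j))).det)

/-- one variable, outside an interval -/
def S_SB1 : Prop := ∀ (φ : Polynomial ℂ) (d : ℕ) (h s : ℝ), 1 ≤ d → φ.natDegree ≤ d → 0 < h → h ≤ 1 →
  0 < s → s ≤ 1 →
  volume {t : ℝ | t ∈ Set.Icc 1 (1 + h) ∧
    ‖φ.eval ((t : ℝ) : ℂ)‖ < (h * s / (8 * d)) ^ d * ‖φ.eval 0‖} ≤ ENNReal.ofReal (s * h)

/-- one variable, from `i` to a real point -/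
def S_SB2 : Prop := ∀ (φ : Polynomial ℂ) (d : ℕ), φ.natDegree ≤ d →
  ∃ t : ℝ, |t| ≤ 1 ∧ ‖φ.eval Complex.I‖ ≤ 16 ^ d * ‖φ.eval ((t : ℝ) : ℂ)‖

/-- Gaussian density comparison -/
def S_SB3 : Prop := ∀ (ι : Type) [Fintype ι] (x : ι → ℝ) (t : ℝ) (S : Set (ι → ℝ)),
  MeasurableSet S → 1 ≤ t → (t - 1) * (Fintype.card ι + ∑ i, (x i) ^ 2) ≤ 1 →
  (gam ι).real S ≤ 3 * (gam ι).real {g | (fun i => t * g i + (1 - t) * x i) ∈ S}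

/-- small ball estimate for polynomials of Gaussian variables -/
def S_SB : Prop := ∃ C : ℝ, 1 ≤ C ∧ ∀ (ι : Type) [Fintype ι] (P : MvPolynomial ι ℂ) (d : ℕ)
  (B s : ℝ) (z : ι → ℂ), 1 ≤ d → P.totalDegree ≤ d → 1 ≤ B → (∀ i, ‖z i‖ ≤ B) → 0 < s → s ≤ 1 →
  (gam ι).real {x | ‖MvPolynomial.eval (fun i => ((x i : ℝ) : ℂ)) P‖ <
    (s / (C * d * (Fintype.card ι + 1) * B ^ 2)) ^ d * ‖MvPolynomial.eval z P‖} ≤ C * s

/-- conditional small ball estimate for the bordered determinant -/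
def S_LOWD : Prop := ∀ (n m : ℕ) (a : Fin n → Matrix (Fin m) (Fin m) ℂ), 1 ≤ m → Ind a → Inv a →
  ∃ (K0 C : ℕ), 1 ≤ K0 ∧ 1 ≤ C ∧ ∀ (N' k1 : ℕ) (g' : Fin n × Fin N' × Fin N' → ℝ) (δ s : ℝ),
    1 ≤ N' → 1 ≤ k1 → 0 < δ → δ ≤ 1 / 2 → 2 * δ * tg (AN a N' g') δ ≤ k1 → 0 < s → s ≤ 1 →
    (gam (Bd n N' (K0 * k1))).real
      {h | ‖((((Real.sqrt N')⁻¹ : ℝ) : ℂ) • W a (glue g' h)).det‖ <
        (s / (C * (N' + k1 : ℝ) ^ C)) ^ (C * k1) *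
          Real.exp (ld (AN a N' g') δ / 2 - δ * tg (AN a N' g') δ)} ≤ C * s

/-- reduction of the size `N = N' + K` problem to principal block and border -/
def S_COND : Prop := ∀ (n m N' K : ℕ) (a : Fin n → Matrix (Fin m) (Fin m) ℂ) (θ s : ℝ)
  (Bad : Set (Fin n × Fin N' × Fin N' → ℝ)), 1 ≤ N' → 0 ≤ s →
  (∀ g', g' ∉ Bad → (gam (Bd n N' K)).real
    {h | ‖((((Real.sqrt N')⁻¹ : ℝ) : ℂ) • W a (glue g' h)).det‖ < θ} ≤ s) →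
  (gam (Fin n × Fin (N' + K) × Fin (N' + K))).real
    {g | ‖((((Real.sqrt N')⁻¹ : ℝ) : ℂ) • W a g).det‖ < θ} ≤
    (gam (Fin n × Fin N' × Fin N')).real Bad + s

/-- elementary asymptotics -/
def S_ASY : Prop := ∀ (m K0 C : ℕ) (ε : ℝ), 1 ≤ m → 1 ≤ K0 → 1 ≤ C → 0 < ε →
  ε < Real.exp (-(1 / 2)) → ∃ ε1 : ℝ, 0 < ε1 ∧ ∃ N0 : ℕ, ∀ N : ℕ, N0 ≤ N →
  ∃ k1 N' : ℕ, 1 ≤ k1 ∧ 1 ≤ N' ∧ N = N' + K0 * k1 ∧ (N : ℝ) ≤ 2 * N' ∧ dl N' ≤ 1 / 2 ∧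
    4 * m * dl N' * N' ≤ k1 ∧
    (Real.sqrt (N / N') * (Real.exp (-(1 / 2)) - ε)) ^ (m * N) <
      (rt N / (C * (N' + k1 : ℝ) ^ C)) ^ (C * k1) *
        Real.exp (-(m * N' * (1 + ε1) / 2) - 2 * m * dl N' * N')

/-- lower deviations -/
def S_LOW : Prop := ∀ (n m : ℕ) (a : Fin n → Matrix (Fin m) (Fin m) ℂ), 1 ≤ m → DS a → Ind a →
  ∀ ε : ℝ, 0 < ε → ∃ C : ℝ, ∀ N : ℕ, 1 ≤ N →
    (gam (Fin n × Fin N × Fin N)).real {g | DN a N g ≤ Real.exp (-(1 / 2)) - ε} ≤ C * rt N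

/-- the doubly stochastic indecomposable case -/
def S_GDS : Prop := ∀ (n m : ℕ) (a : Fin n → Matrix (Fin m) (Fin m) ℂ), 1 ≤ m → DS a → Ind a →
  Good a (Real.exp (-(1 / 2)))

/-! ### Reduction to the doubly stochastic indecomposable case -/

def S_RND : Prop := ∀ (n m : ℕ) (a : Fin n → Matrix (Fin m) (Fin m) ℂ), RND a → Nd a

/-- block triangular form -/
def S_BLOCK : Prop := ∀ (n m : ℕ) (a : Fin n → Matrix (Fin m) (Fin m) ℂ), 1 ≤ m → Nd a → ¬ Ind a →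
  ∃ (p q : ℕ) (e : Fin p ⊕ Fin q ≃ Fin m) (U V : Matrix (Fin m) (Fin m) ℂ)
    (a' : Fin n → Matrix (Fin p) (Fin p) ℂ) (c : Fin n → Matrix (Fin p) (Fin q) ℂ)
    (a'' : Fin n → Matrix (Fin q) (Fin q) ℂ),
    1 ≤ p ∧ 1 ≤ q ∧ p + q = m ∧ ‖U.det‖ = 1 ∧ ‖V.det‖ = 1 ∧
    (∀ j, U * a j * V = Matrix.reindex e e (Matrix.fromBlocks (a' j) (c j) 0 (a'' j))) ∧
    Nd a' ∧ Nd a''

/-- capacity of a block triangular tuple -/
def S_CAPM : Prop := ∀ (n p q : ℕ)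
    (a' : Fin n → Matrix (Fin p) (Fin p) ℂ) (c : Fin n → Matrix (Fin p) (Fin q) ℂ)
    (a'' : Fin n → Matrix (Fin q) (Fin q) ℂ) (m : ℕ) (e : Fin p ⊕ Fin q ≃ Fin m)
    (a : Fin n → Matrix (Fin m) (Fin m) ℂ), 1 ≤ p → 1 ≤ q →
    (∀ j, a j = Matrix.reindex e e (Matrix.fromBlocks (a' j) (c j) 0 (a'' j))) →
    0 < cap a' → 0 < cap a'' → cap a = cap a' * cap a''

/-- capacity under left and right multiplication -/
def S_CAPS : Prop := ∀ (n m : ℕ) (a : Fin n → Matrix (Fin m) (Fin m) ℂ)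
  (U V : Matrix (Fin m) (Fin m) ℂ), U.det ≠ 0 → V.det ≠ 0 →
  cap (fun j => U * a j * V) = ‖U.det‖ ^ 2 * ‖V.det‖ ^ 2 * cap a

/-- existence of a minimiser for an indecomposable tuple -/
def S_MIN : Prop := ∀ (n m : ℕ) (a : Fin n → Matrix (Fin m) (Fin m) ℂ), 1 ≤ m → Ind a →
  ∃ b0 : Matrix (Fin m) (Fin m) ℂ, b0.PosDef ∧ (eta a b0).PosDef ∧
    ∀ b : Matrix (Fin m) (Fin m) ℂ, b.PosDef →
      (eta a b0).det.re / b0.det.re ≤ (eta a b).det.re / b.det.re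

/-- the Lagrange condition at a minimiser -/
def S_LAG : Prop := ∀ (n m : ℕ) (a : Fin n → Matrix (Fin m) (Fin m) ℂ)
  (b0 : Matrix (Fin m) (Fin m) ℂ), b0.PosDef → (eta a b0).PosDef →
  (∀ b : Matrix (Fin m) (Fin m) ℂ, b.PosDef →
    (eta a b0).det.re / b0.det.re ≤ (eta a b).det.re / b.det.re) →
  etas a (eta a b0)⁻¹ = b0⁻¹

/-- scaling to a doubly stochastic tuple -/
def S_SCALE : Prop := ∀ (n m : ℕ) (a : Fin n → Matrix (Fin m) (Fin m) ℂ), 1 ≤ m → Ind a →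
  0 < cap a ∧ ∃ U V : Matrix (Fin m) (Fin m) ℂ, U.det ≠ 0 ∧ V.det ≠ 0 ∧
    DS (fun j => U * a j * V) ∧ Ind (fun j => U * a j * V) ∧
    cap a * (‖U.det‖ ^ 2 * ‖V.det‖ ^ 2) = 1

/-- normalised determinants under scaling -/
def S_DNS : Prop := ∀ (n m N : ℕ) (a : Fin n → Matrix (Fin m) (Fin m) ℂ)
  (U V : Matrix (Fin m) (Fin m) ℂ) (g : Fin n × Fin N × Fin N → ℝ), 1 ≤ m → 1 ≤ N →
  DN (fun j => U * a j * V) N g = (‖U.det‖ * ‖V.det‖) ^ (1 / (m : ℝ)) * DN a N g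

/-- normalised determinants of block triangular tuples -/
def S_DNM : Prop := ∀ (n p q : ℕ)
    (a' : Fin n → Matrix (Fin p) (Fin p) ℂ) (c : Fin n → Matrix (Fin p) (Fin q) ℂ)
    (a'' : Fin n → Matrix (Fin q) (Fin q) ℂ) (m : ℕ) (e : Fin p ⊕ Fin q ≃ Fin m)
    (a : Fin n → Matrix (Fin m) (Fin m) ℂ), 1 ≤ p → 1 ≤ q →
    (∀ j, a j = Matrix.reindex e e (Matrix.fromBlocks (a' j) (c j) 0 (a'' j))) →
    ∀ (N : ℕ) (g : Fin n × Fin N × Fin N → ℝ), 1 ≤ N →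
      DN a N g = DN a' N g ^ ((p : ℝ) / m) * DN a'' N g ^ ((q : ℝ) / m)

/-- main theorem in canonical form -/
def S_GEN : Prop := ∀ (n m : ℕ) (a : Fin n → Matrix (Fin m) (Fin m) ℂ), 1 ≤ m → Nd a →
  0 < cap a ∧ Good a (cap a ^ (1 / (2 * (m : ℝ))) * Real.exp (-1 / 2))

/-! ### Transfer -/

def S_TRANS : Prop := ∀ (n N : ℕ) (Ω : Type) [MeasurableSpace Ω] (P : Measure Ω)
  [IsProbabilityMeasure P] (X : Fin n → Ω → Matrix (Fin N) (Fin N) ℂ), 1 ≤ N →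
  (∀ i ω, (X i ω).IsHermitian) →
  iIndepFun (fun p : {p : Fin n × Fin N × Fin N // p.2.1 ≤ p.2.2} =>
    fun ω => X p.1.1 ω p.1.2.1 p.1.2.2) P →
  (∀ i (j : Fin N), P.map (fun ω => X i ω j j)
    = (gaussianReal 0 (1 / (N : ℝ≥0))).map (fun x : ℝ => (x : ℂ))) →
  (∀ i (j k : Fin N), j < k → P.map (fun ω => X i ω j k)
    = ((gaussianReal 0 (1 / (2 * (N : ℝ≥0)))).prod
        (gaussianReal 0 (1 / (2 * (N : ℝ≥0))))).map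
        (fun x : ℝ × ℝ => Complex.equivRealProd.symm x)) →
  AEMeasurable (fun ω (i : Fin n) (k l : Fin N) => X i ω k l) P ∧
  P.map (fun ω (i : Fin n) (k l : Fin N) => X i ω k l) =
    (gam (Fin n × Fin N × Fin N)).map
      (fun g i k l => (((Real.sqrt N)⁻¹ : ℝ) : ℂ) * Hm (fun x y => g (i, x, y)) k l)

/-- from summable convergence in probability to the expectation -/
def S_EXP : Prop := ∀ (n m : ℕ) (a : Fin n → Matrix (Fin m) (Fin m) ℂ) (L : ℝ), 1 ≤ m → Good a L →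
  Tendsto (fun N : ℕ => ∫ g, DN a N g ∂(gam (Fin n × Fin N × Fin N))) atTop (𝓝 L)

/-- the frozen statement -/
def Main : Prop :=
  ∀ (m n : ℕ), 1 ≤ m → ∀ (a : Fin n → Matrix (Fin m) (Fin m) ℤ),
    (∀ b : Matrix (Fin m) (Fin m) ℂ, b.PosSemidef →
        b.rank ≤ (∑ i, (a i).map (Int.cast : ℤ → ℂ) * b * ((a i).map (Int.cast : ℤ → ℂ))ᴴ).rank) →
    ∀ (Ω : Type) [MeasurableSpace Ω] (P : Measure Ω) [IsProbabilityMeasure P]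
      (X : (N : ℕ) → Fin n → Ω → Matrix (Fin N) (Fin N) ℂ),
      (∀ N i ω, (X N i ω).IsHermitian) →
      (∀ N, iIndepFun
          (fun p : {p : Fin n × Fin N × Fin N // p.2.1 ≤ p.2.2} =>
            fun ω => X N p.1.1 ω p.1.2.1 p.1.2.2) P) →
      (∀ N i (j : Fin N), P.map (fun ω => X N i ω j j)
          = (gaussianReal 0 (1 / (N : ℝ≥0))).map (fun x : ℝ => (x : ℂ))) →
      (∀ N i (j k : Fin N), j < k → P.map (fun ω => X N i ω j k)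
          = ((gaussianReal 0 (1 / (2 * (N : ℝ≥0)))).prod
              (gaussianReal 0 (1 / (2 * (N : ℝ≥0))))).map
              (fun x : ℝ × ℝ => Complex.equivRealProd.symm x)) →
      (∀ᵐ ω ∂P, ∀ᶠ N in atTop,
          IsUnit (∑ i, Matrix.kronecker ((a i).map (Int.cast : ℤ → ℂ)) (X N i ω)).det) ∧
      (∀ᵐ ω ∂P, Tendsto
          (fun N : ℕ => ‖(∑ i, Matrix.kronecker ((a i).map (Int.cast : ℤ → ℂ)) (X N i ω)).det‖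
              ^ (1 / ((m : ℝ) * (N : ℝ))))
          atTop
          (𝓝 ((sInf {c : ℝ | ∃ b : Matrix (Fin m) (Fin m) ℂ, b.PosDef ∧
                c = (∑ i, (a i).map (Int.cast : ℤ → ℂ) * b
                      * ((a i).map (Int.cast : ℤ → ℂ))ᴴ).det.re / b.det.re})
                ^ (1 / (2 * (m : ℝ))) * Real.exp (-1 / 2)))) ∧
      Tendsto
          (fun N : ℕ => ∫ ω, ‖(∑ i, Matrix.kronecker ((a i).map (Int.cast : ℤ → ℂ)) (X N i ω)).det‖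
              ^ (1 / ((m : ℝ) * (N : ℝ))) ∂P)
          atTop
          (𝓝 ((sInf {c : ℝ | ∃ b : Matrix (Fin m) (Fin m) ℂ, b.PosDef ∧
                c = (∑ i, (a i).map (Int.cast : ℤ → ℂ) * b
                      * ((a i).map (Int.cast : ℤ → ℂ))ᴴ).det.re / b.det.re})
                ^ (1 / (2 * (m : ℝ))) * Real.exp (-1 / 2)))

end Pool.Agent.W837.GB
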