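import Pool.Agent.W837.GB.Defs

set_option autoImplicit false
open MeasureTheory Finset
open scoped NNReal Matrix ComplexOrder

namespace Pool.Agent.W837.GBS.ST
open Pool.Agent.W837.GB

variable {m : ℕ}

/-- quadratic form bound by the entries -/
lemma quad_le (E : Matrix (Fin m) (Fin m) ℂ) (e : ℝ) (he : 0 ≤ e) (hE : ∀ x y, ‖E x y‖ ≤ e)
    (w : Fin m → ℂ) (hw : ∑ x, ‖w x‖ ^ 2 = 1) : ‖star w ⬝ᵥ E *ᵥ w‖ ≤ m * e := by
  have h1 : ‖star w ⬝ᵥ E *ᵥ w‖ ≤ ∑ x, ∑ y, ‖w x‖ * (e * ‖w y‖) := by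
    unfold dotProduct Matrix.mulVec dotProduct
    refine le_trans (norm_sum_le _ _) (Finset.sum_le_sum fun x _ => ?_)
    rw [norm_mul, Pi.star_apply, norm_star, ← Finset.mul_sum]
    apply mul_le_mul_of_nonneg_left _ (norm_nonneg _)
    refine le_trans (norm_sum_le _ _) (Finset.sum_le_sum fun y _ => ?_)
    rw [norm_mul]
    exact mul_le_mul_of_nonneg_right (hE x y) (norm_nonneg _)
  have h2 : ∑ x, ∑ y, ‖w x‖ * (e * ‖w y‖) = e * (∑ x, ‖w x‖) ^ 2 := by
    simp only [← Finset.mul_sum, ← Finset.sum_mul]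
    ring
  have h3 : (∑ x, ‖w x‖) ^ 2 ≤ (m : ℝ) * ∑ x, ‖w x‖ ^ 2 := by
    have := sq_sum_le_card_mul_sum_sq (s := (univ : Finset (Fin m))) (f := fun x => ‖w x‖)
    simpa using this
  rw [h2] at h1
  rw [hw, mul_one] at h3
  calc _ ≤ e * (∑ x, ‖w x‖) ^ 2 := h1
    _ ≤ e * m := mul_le_mul_of_nonneg_left h3 he
    _ = m * e := mul_comm _ _

lemma dot_one (w : Fin m → ℂ) (hw : ∑ x, ‖w x‖ ^ 2 = 1) : star w ⬝ᵥ w = 1 := by
  unfold dotProduct
  have : ∀ x, (star w) x * w x = ((‖w x‖ ^ 2 : ℝ) : ℂ) := by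
    intro x
    rw [Pi.star_apply, Complex.star_def, mul_comm, Complex.mul_conj, Complex.normSq_eq_norm_sq]
  simp only [this]
  rw [← Complex.ofReal_sum, hw]
  simp

/-- evaluation at an eigenvector -/
lemma ev (X M : Matrix (Fin m) (Fin m) ℂ) (δ e lam : ℝ) (he : 0 ≤ e) (w : Fin m → ℂ)
    (hw : ∑ x, ‖w x‖ ^ 2 = 1) (hM : M *ᵥ w = (lam : ℂ) • w)
    (hE : ∀ x y, ‖(((δ : ℂ) • (1 : Matrix (Fin m) (Fin m) ℂ) + X) * M - 1) x y‖ ≤ e) :
    |lam * (δ + (star w ⬝ᵥ X *ᵥ w).re) - 1| ≤ m * e := by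
  have h := quad_le _ e he hE w hw
  have h1 : star w ⬝ᵥ ((((δ : ℂ) • (1 : Matrix (Fin m) (Fin m) ℂ) + X) * M - 1) *ᵥ w)
      = (lam : ℂ) * ((δ : ℂ) + star w ⬝ᵥ X *ᵥ w) - 1 := by
    rw [Matrix.sub_mulVec, ← Matrix.mulVec_mulVec, hM, Matrix.mulVec_smul, Matrix.add_mulVec,
      Matrix.smul_mulVec, Matrix.one_mulVec, dotProduct_sub, dotProduct_smul, dotProduct_add,
      dotProduct_smul, dot_one w hw]
    simp
  rw [h1] at h
  have h2 : lam * (δ + (star w ⬝ᵥ X *ᵥ w).re) - 1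
      = ((lam : ℂ) * ((δ : ℂ) + star w ⬝ᵥ X *ᵥ w) - 1).re := by
    simp
  rw [h2]
  exact le_trans (Complex.abs_re_le_norm _) h

lemma psd_re (X : Matrix (Fin m) (Fin m) ℂ) (c : ℝ) (w : Fin m → ℂ) (hw : ∑ x, ‖w x‖ ^ 2 = 1)
    (h : (X - (c : ℂ) • (1 : Matrix (Fin m) (Fin m) ℂ)).PosSemidef) :
    c ≤ (star w ⬝ᵥ X *ᵥ w).re := by
  have h1 := h.re_dotProduct_nonneg w
  rw [Matrix.sub_mulVec, Matrix.smul_mulVec, Matrix.one_mulVec, dotProduct_sub, dotProduct_smul,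
    dot_one w hw] at h1
  simp at h1
  linarith

lemma psd_re' (X : Matrix (Fin m) (Fin m) ℂ) (c : ℝ) (w : Fin m → ℂ) (hw : ∑ x, ‖w x‖ ^ 2 = 1)
    (h : ((c : ℂ) • (1 : Matrix (Fin m) (Fin m) ℂ) - X).PosSemidef) :
    (star w ⬝ᵥ X *ᵥ w).re ≤ c := by
  have h1 := h.re_dotProduct_nonneg w
  rw [Matrix.sub_mulVec, Matrix.smul_mulVec, Matrix.one_mulVec, dotProduct_sub, dotProduct_smul,
    dot_one w hw] at h1
  simp at h1
  linarith

lemma eig_bounds (M : Matrix (Fin m) (Fin m) ℂ) (hM : M.IsHermitian) (q p : ℝ)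
    (hq : ∀ i, q ≤ hM.eigenvalues i) (hp : ∀ i, hM.eigenvalues i ≤ p) :
    (M - (q : ℂ) • (1 : Matrix (Fin m) (Fin m) ℂ)).PosSemidef ∧
    ((p : ℂ) • (1 : Matrix (Fin m) (Fin m) ℂ) - M).PosSemidef := by
  have hs : M = (hM.eigenvectorUnitary : Matrix (Fin m) (Fin m) ℂ)
      * Matrix.diagonal (fun i => ((hM.eigenvalues i : ℝ) : ℂ))
      * (hM.eigenvectorUnitary : Matrix (Fin m) (Fin m) ℂ)ᴴ := by
    conv_lhs => rw [hM.spectral_theorem]
    rfl
  have hu : (hM.eigenvectorUnitary : Matrix (Fin m) (Fin m) ℂ)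
      * (hM.eigenvectorUnitary : Matrix (Fin m) (Fin m) ℂ)ᴴ = 1 :=
    Matrix.mem_unitaryGroup_iff.1 hM.eigenvectorUnitary.2
  set U : Matrix (Fin m) (Fin m) ℂ := (hM.eigenvectorUnitary : Matrix (Fin m) (Fin m) ℂ)
  constructor
  · have e1 : M - (q : ℂ) • (1 : Matrix (Fin m) (Fin m) ℂ)
        = U * Matrix.diagonal (fun i => ((hM.eigenvalues i - q : ℝ) : ℂ)) * Uᴴ := by
      have : Matrix.diagonal (fun i => ((hM.eigenvalues i - q : ℝ) : ℂ))
          = Matrix.diagonal (fun i => ((hM.eigenvalues i : ℝ) : ℂ))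
            - (q : ℂ) • (1 : Matrix (Fin m) (Fin m) ℂ) := by
        ext i j
        by_cases h : i = j
        · subst h; simp
        · simp [h]
      rw [this, mul_sub, sub_mul, ← hs, mul_smul_comm, mul_one, smul_mul_assoc, hu]
    rw [e1]
    apply Matrix.PosSemidef.mul_mul_conjTranspose_same
    rw [Matrix.posSemidef_diagonal_iff]
    intro i
    have := hq i
    exact_mod_cast (by linarith : 0 ≤ hM.eigenvalues i - q)
  · have e1 : (p : ℂ) • (1 : Matrix (Fin m) (Fin m) ℂ) - M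
        = U * Matrix.diagonal (fun i => ((p - hM.eigenvalues i : ℝ) : ℂ)) * Uᴴ := by
      have : Matrix.diagonal (fun i => ((p - hM.eigenvalues i : ℝ) : ℂ))
          = (p : ℂ) • (1 : Matrix (Fin m) (Fin m) ℂ)
            - Matrix.diagonal (fun i => ((hM.eigenvalues i : ℝ) : ℂ)) := by
        ext i j
        by_cases h : i = j
        · subst h; simp
        · simp [h]
      rw [this, mul_sub, sub_mul, ← hs, mul_smul_comm, mul_one, smul_mul_assoc, hu]
    rw [e1]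
    apply Matrix.PosSemidef.mul_mul_conjTranspose_same
    rw [Matrix.posSemidef_diagonal_iff]
    intro i
    have := hp i
    exact_mod_cast (by linarith : 0 ≤ p - hM.eigenvalues i)

lemma eta_psd {n : ℕ} (a : Fin n → Matrix (Fin m) (Fin m) ℂ) (M : Matrix (Fin m) (Fin m) ℂ)
    (h : M.PosSemidef) : (eta a M).PosSemidef ∧ (etas a M).PosSemidef := by
  constructor
  · unfold eta
    exact Matrix.posSemidef_sum _ fun j _ => h.mul_mul_conjTranspose_same _
  · unfold etas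
    exact Matrix.posSemidef_sum _ fun j _ => h.conjTranspose_mul_mul_same _

lemma eta_lin {n : ℕ} (a : Fin n → Matrix (Fin m) (Fin m) ℂ) (hDS : DS a)
    (M : Matrix (Fin m) (Fin m) ℂ) (c : ℂ) :
    eta a (M - c • 1) = eta a M - c • 1 ∧ eta a (c • 1 - M) = c • 1 - eta a M ∧
    etas a (M - c • 1) = etas a M - c • 1 ∧ etas a (c • 1 - M) = c • 1 - etas a M := by
  have h1 := hDS.1
  have h2 := hDS.2
  refine ⟨?_, ?_, ?_, ?_⟩
  · conv_rhs => rw [← h1]
    unfold eta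
    rw [Finset.smul_sum, ← Finset.sum_sub_distrib]
    exact Finset.sum_congr rfl fun j _ => by rw [mul_sub, sub_mul, mul_smul_comm, smul_mul_assoc]
  · conv_rhs => rw [← h1]
    unfold eta
    rw [Finset.smul_sum, ← Finset.sum_sub_distrib]
    exact Finset.sum_congr rfl fun j _ => by rw [mul_sub, sub_mul, mul_smul_comm, smul_mul_assoc]
  · conv_rhs => rw [← h2]
    unfold etas
    rw [Finset.smul_sum, ← Finset.sum_sub_distrib]
    exact Finset.sum_congr rfl fun j _ => by rw [mul_sub, sub_mul, mul_smul_comm, smul_mul_assoc]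
  · conv_rhs => rw [← h2]
    unfold etas
    rw [Finset.smul_sum, ← Finset.sum_sub_distrib]
    exact Finset.sum_congr rfl fun j _ => by rw [mul_sub, sub_mul, mul_smul_comm, smul_mul_assoc]

lemma eig_vec (M : Matrix (Fin m) (Fin m) ℂ) (hM : M.IsHermitian) (i : Fin m) :
    ∃ w : Fin m → ℂ, ∑ x, ‖w x‖ ^ 2 = 1 ∧ M *ᵥ w = ((hM.eigenvalues i : ℝ) : ℂ) • w := by
  refine ⟨⇑(hM.eigenvectorBasis i), ?_, ?_⟩
  · have h := hM.eigenvectorBasis.orthonormal.1 i
    rw [EuclideanSpace.norm_eq, Real.sqrt_eq_one] at h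
    exact h
  · rw [hM.mulVec_eigenvectorBasis]
    rfl

theorem stab : S_STAB := by
  intro n m a δ e M1 M2 hm hDS hδ he h1 h2 _ _ hE1 hE2
  have : Nonempty (Fin m ⊕ Fin m) := ⟨Sum.inl ⟨0, hm⟩⟩
  set ev' : Fin m ⊕ Fin m → ℝ := Sum.elim h1.1.eigenvalues h2.1.eigenvalues with hev
  obtain ⟨ip, hip⟩ := Finite.exists_max ev'
  obtain ⟨iq, hiq⟩ := Finite.exists_min ev'
  set p := ev' ip with hp
  set q := ev' iq with hq
  have hq0 : 0 ≤ q := by
    rw [hq]
    rcases iq with i | i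
    · exact h1.eigenvalues_nonneg i
    · exact h2.eigenvalues_nonneg i
  have hqp : q ≤ p := hip iq
  obtain ⟨b1, b2⟩ := eig_bounds M1 h1.1 q p (fun i => hiq (Sum.inl i)) (fun i => hip (Sum.inl i))
  obtain ⟨c1, c2⟩ := eig_bounds M2 h2.1 q p (fun i => hiq (Sum.inr i)) (fun i => hip (Sum.inr i))
  have d1 : (etas a M1 - (q : ℂ) • (1 : Matrix (Fin m) (Fin m) ℂ)).PosSemidef := by
    rw [← (eta_lin a hDS M1 q).2.2.1]; exact (eta_psd a _ b1).2
  have d2 : ((p : ℂ) • (1 : Matrix (Fin m) (Fin m) ℂ) - etas a M1).PosSemidef := by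
    rw [← (eta_lin a hDS M1 p).2.2.2]; exact (eta_psd a _ b2).2
  have d3 : (eta a M2 - (q : ℂ) • (1 : Matrix (Fin m) (Fin m) ℂ)).PosSemidef := by
    rw [← (eta_lin a hDS M2 q).1]; exact (eta_psd a _ c1).1
  have d4 : ((p : ℂ) • (1 : Matrix (Fin m) (Fin m) ℂ) - eta a M2).PosSemidef := by
    rw [← (eta_lin a hDS M2 p).2.1]; exact (eta_psd a _ c2).1
  set r : ℝ := m * e with hr
  have hr0 : 0 ≤ r := by positivity
  have P : p * (δ + q) ≤ 1 + r := by
    have hp0 : 0 ≤ p := hq0.trans hqp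
    rcases hipc : ip with i | i
    · obtain ⟨w, hw1, hw2⟩ := eig_vec M1 h1.1 i
      have hpi : h1.1.eigenvalues i = p := by rw [hp, hipc]; rfl
      rw [hpi] at hw2
      have t1 := ev (eta a M2) M1 δ e p he w hw1 hw2 hE1
      have t2 := psd_re _ _ w hw1 d3
      have t3 := (abs_le.1 t1).2
      have t4 := mul_le_mul_of_nonneg_left t2 hp0
      rw [← hr] at t3
      nlinarith
    · obtain ⟨w, hw1, hw2⟩ := eig_vec M2 h2.1 i
      have hpi : h2.1.eigenvalues i = p := by rw [hp, hipc]; rfl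
      rw [hpi] at hw2
      have t1 := ev (etas a M1) M2 δ e p he w hw1 hw2 hE2
      have t2 := psd_re _ _ w hw1 d1
      have t3 := (abs_le.1 t1).2
      have t4 := mul_le_mul_of_nonneg_left t2 hp0
      rw [← hr] at t3
      nlinarith
  have Qz : 1 - r ≤ q * (δ + p) := by
    rcases hiqc : iq with i | i
    · obtain ⟨w, hw1, hw2⟩ := eig_vec M1 h1.1 i
      have hqi : h1.1.eigenvalues i = q := by rw [hq, hiqc]; rfl
      rw [hqi] at hw2
      have t1 := ev (eta a M2) M1 δ e q he w hw1 hw2 hE1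
      have t2 := psd_re' _ _ w hw1 d4
      have t3 := (abs_le.1 t1).1
      have t4 := mul_le_mul_of_nonneg_left t2 hq0
      rw [← hr] at t3
      nlinarith
    · obtain ⟨w, hw1, hw2⟩ := eig_vec M2 h2.1 i
      have hqi : h2.1.eigenvalues i = q := by rw [hq, hiqc]; rfl
      rw [hqi] at hw2
      have t1 := ev (etas a M1) M2 δ e q he w hw1 hw2 hE2
      have t2 := psd_re' _ _ w hw1 d2
      have t3 := (abs_le.1 t1).1
      have t4 := mul_le_mul_of_nonneg_left t2 hq0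
      rw [← hr] at t3
      nlinarith
  set mu := ms δ with hmu
  have hs2 : Real.sqrt (δ ^ 2 + 4) ^ 2 = δ ^ 2 + 4 := Real.sq_sqrt (by positivity)
  have hmu1 : mu * (δ + mu) = 1 := by
    rw [hmu]; unfold ms; nlinarith
  have hmu0 : 0 < mu := by
    have : δ < Real.sqrt (δ ^ 2 + 4) := Real.lt_sqrt_of_sq_lt (by linarith)
    rw [hmu]; unfold ms; linarith
  have s1 : δ * (p - q) ≤ 2 * r := by nlinarith
  have s2 : δ * (q - mu) ≤ r := by
    by_contra hcon
    push Not at hcon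
    have h3 : (q - mu) * (δ + q + mu) ≤ r := by nlinarith
    have h4 : 0 < q - mu := by
      by_contra h5
      push Not at h5
      nlinarith
    nlinarith [mul_nonneg h4.le hq0, mul_pos h4 hmu0]
  have s3 : -r ≤ δ * (p - mu) := by
    by_contra hcon
    push Not at hcon
    have h3 : -r ≤ (p - mu) * (δ + p + mu) := by nlinarith
    have h4 : p - mu < 0 := by
      by_contra h5
      push Not at h5
      nlinarith
    have h5 : 0 ≤ p := hq0.trans hqp
    nlinarith [mul_nonneg (neg_nonneg.2 h4.le) h5, mul_pos (neg_pos.2 h4) hmu0]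
  have htr : M1.trace.re = ∑ i, h1.1.eigenvalues i := by
    rw [h1.1.trace_eq_sum_eigenvalues]
    simp
  have hm0 : (0 : ℝ) < m := by exact_mod_cast hm
  have hup : M1.trace.re / m ≤ p := by
    rw [div_le_iff₀ hm0, htr]
    calc ∑ i, h1.1.eigenvalues i ≤ ∑ i : Fin m, p := Finset.sum_le_sum fun i _ => hip (Sum.inl i)
      _ = p * m := by simp [mul_comm]
  have hlo : q ≤ M1.trace.re / m := by
    rw [le_div_iff₀ hm0, htr]
    calc q * m = ∑ i : Fin m, q := by simp [mul_comm]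
      _ ≤ _ := Finset.sum_le_sum fun i _ => hiq (Sum.inl i)
  have hfin : |M1.trace.re / m - mu| ≤ 3 * r * δ⁻¹ := by
    have e1 : δ * δ⁻¹ = 1 := mul_inv_cancel₀ hδ.ne'
    have hi : 0 < δ⁻¹ := inv_pos.2 hδ
    have u1 : p - mu ≤ 3 * r * δ⁻¹ := by
      have : (p - mu) * δ ≤ 3 * r := by linarith
      rwa [← div_eq_mul_inv, le_div_iff₀ hδ]
    have u2 : -(3 * r * δ⁻¹) ≤ q - mu := by
      have : (mu - q) * δ ≤ 3 * r := by linarith
      have := (le_div_iff₀ hδ).2 this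
      rw [div_eq_mul_inv] at this
      linarith
    rw [abs_le]
    constructor <;> linarith
  refine hfin.trans ?_
  have : 0 ≤ 3 * r * δ⁻¹ ^ 3 := by positivity
  calc 3 * r * δ⁻¹ ≤ 3 * r * δ⁻¹ + 3 * r * δ⁻¹ ^ 3 := by linarith
    _ = 3 * m * e * (δ⁻¹ + δ⁻¹ ^ 3) := by rw [hr]; ring

end Pool.Agent.W837.GBS.ST
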