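import Pool.Agent.W837.GB.Defs
import Pool.Agent.W74.GB.IBP
import Pool.Agent.W462.GB.Rot
import Pool.Agent.W368.GB.Var
import Pool.Agent.W346.GB.Res
import Pool.Agent.W397.GB.RD
import Pool.Agent.W475.GB.EB
import Pool.Agent.W427.GB.Rb
import Pool.Agent.W291.GB.SDE
import Pool.Agent.W473.GB.SD
import Pool.Agent.W756.GB.Blk
import Pool.Agent.W253.GB.Psd
import Pool.Agent.W837.GB.Stab
import Pool.Agent.W645.GB.Gmean
import Pool.Agent.W473.GB.GVar
import Pool.Agent.W291.GB.LVAR
import Pool.Agent.W253.GB.Lder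
import Pool.Agent.W253.GB.Llarge
import Pool.Agent.W883.GB.Fint
import Pool.Agent.W473.GB.LMean
import Pool.Agent.W67.GB.Bulk
import Pool.Agent.W646.GB.Up
import Pool.Agent.W465.GB.SE
import Pool.Agent.W18.GB.Reg
import Pool.Agent.W427.GB.Dsinv
import Pool.Agent.W473.GB.BT
import Pool.Agent.W753.GB.Burn
import Pool.Agent.W807.GB.Eval
import Pool.Agent.W291.GB.POLY
import Pool.Agent.W721.GB.Sb
import Pool.Agent.W101.GB.SB3
import Pool.Agent.W440.GB.Sb
import Pool.Agent.W753.GB.Lowd
import Pool.Agent.W74.GB.COND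
import Pool.Agent.W646.GB.Asy
import Pool.Agent.W253.GB.Low
import Pool.Agent.W475.GB.Gen
import Pool.Agent.W407.GB.Caps
import Pool.Agent.W778.GB.Block
import Pool.Agent.W440.GB.Capm
import Pool.Agent.W369.GB.Min
import Pool.Agent.W646.GB.Lag
import Pool.Agent.W230.GB.Scale
import Pool.Agent.W646.GB.Dns
import Pool.Agent.W67.GB.Dnm
import Pool.Agent.W645.GB.Trans
import Pool.Agent.W361.GB.Exp
import Pool.Agent.W67.GB.Fin
import Pool.Agent.W346.GB.Prim

/-!
# Assembly of project GB (frozen statement S19321 of MP_53c113_pr)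

For Gaussian block matrices `∑ a_j ⊗ X_j` with rank non-decreasing `η` the normalised determinant
converges to `cap(η)^(1/2m) e^(-1/2)`. The proof: reduction to indecomposable tuples, operator
scaling, Schwinger-Dyson equations for the resolvent with a direct stability argument, and a
bordered evaluation point together with a small ball estimate for Gaussian polynomials for the
small singular values.
-/

set_option autoImplicit false

namespace Pool.Agent.W837.GB

theorem main : Main := by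
  have hprim : S_PRIM := Pool.Agent.W346.GB.prim
  have hprop : S_PROP := Pool.Agent.W346.GB.prop_t
  have hvar : S_VAR := Pool.Agent.W368.GB.var Pool.Agent.W462.GB.rot
  have hres : S_RES := Pool.Agent.W346.GB.res_t
  have heb : S_EB := Pool.Agent.W475.GB.eb
  have hrd : S_RD := Pool.Agent.W397.GB.rd hres heb
  have hrb : S_RB := Pool.Agent.W427.GB.rb hvar hres hrd heb
  have hsde : S_SDE := Pool.Agent.W291.GB.sde Pool.Agent.W74.GB.ibp hres hrd heb
  have hsd : S_SD := Pool.Agent.W473.GB.sd hsde hrb hres hrd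
  have hblk : S_BLK := Pool.Agent.W756.GB.blk
  have hpsd : S_PSD := Pool.Agent.W253.GB.psd
  have hgm : S_GMEAN := Pool.Agent.W645.GB.gmean hsd hblk hpsd Pool.Agent.W837.GBS.ST.stab
  have hgv : S_GVAR := Pool.Agent.W473.GB.gvar hrb hblk hres hrd
  have hlv : S_LVAR := Pool.Agent.W291.GB.lvar hvar hres hrd heb hblk
  have hld : S_LDER := Pool.Agent.W253.GB.lder
  have hlm : S_LMEAN := Pool.Agent.W473.GB.lmean hgm hld Pool.Agent.W253.GB.llarge
    Pool.Agent.W883.GB.fint
  have hbulk : S_BULK := Pool.Agent.W67.GB.bulk hgm hgv hlm hlv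
  have hreg : S_REG := Pool.Agent.W18.GB.reg hprim hprop
  have hinv : S_DSINV := Pool.Agent.W427.GB.dsinv hgm hreg hld
  have hburn : S_BURN := Pool.Agent.W753.GB.burn Pool.Agent.W473.GB.bt
  have heval : S_EVAL := Pool.Agent.W807.GB.eval_t hburn
  have hsb : S_SB := Pool.Agent.W440.GB.sb Pool.Agent.W721.GB.sb1 Pool.Agent.W721.GB.sb2
    Pool.Agent.W101.GB.sb3
  have hlowd : S_LOWD := Pool.Agent.W753.GB.lowd Pool.Agent.W465.GB.se heval
    Pool.Agent.W291.GB.poly hsb
  have hlow : S_LOW := Pool.Agent.W253.GB.low hlowd hbulk Pool.Agent.W74.GB.cond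
    Pool.Agent.W646.GB.asy hinv
  have hgds : S_GDS := Pool.Agent.W475.GB.gds Pool.Agent.W646.GB.up hbulk hlow
  have hscale : S_SCALE := Pool.Agent.W230.GB.scale Pool.Agent.W369.GB.min_t
    Pool.Agent.W646.GB.lag
  have hgen : S_GEN := Pool.Agent.W475.GB.gen hgds hscale Pool.Agent.W778.GB.block
    Pool.Agent.W440.GB.capm Pool.Agent.W407.GB.caps Pool.Agent.W646.GB.dns Pool.Agent.W67.GB.dnm
  exact Pool.Agent.W67.GB.fin hgen Pool.Agent.W645.GB.trans Pool.Agent.W361.GB.exp_t
    Pool.Agent.W407.GB.rnd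

end Pool.Agent.W837.GB
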